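import Mathlib
import Pool.Agent.Helper91.GU.StE

set_option autoImplicit false

namespace Pool.Agent.Helper39.GU

open Polynomial
open Pool.Agent.Helper91.GU

universe u

private lemma gen_monomial {L B : Type u} [CommRing L] [CommRing B] (φ : L[X] →+* B) (n : ℕ)
    (c : L) : eval₂RingHom ((C : B →+* B[X]).comp (φ.comp (C : L →+* L[X]))) (C (φ X) * X)
      (monomial n c) = monomial n (φ (C c * X ^ n)) := by
  rw [coe_eval₂RingHom, eval₂_monomial, RingHom.comp_apply, RingHom.comp_apply, mul_pow, ← C_pow,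
    ← mul_assoc, ← C_mul, ← map_pow, ← map_mul, C_mul_X_pow_eq_monomial]

private lemma phi_monomial {L : Type u} [CommRing L] (I : Ideal L[X]) (n : ℕ) (c : L) :
    Phi I (monomial n c) = monomial n (Ideal.Quotient.mk I (C c * X ^ n)) :=
  gen_monomial (Ideal.Quotient.mk I) n c

private lemma gen_rhs {L B : Type u} [CommRing L] [CommRing B] (φ : L →+* B) (β : B) (M l : ℕ)
    (c : L) : (X : B[X]) ^ M * C β * (monomial l c).map φ = monomial (M + l) (β * φ c) := by
  rw [map_monomial, mul_assoc, C_mul_monomial, X_pow_mul_monomial, add_comm]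

private lemma phi_coeff {L : Type u} [CommRing L] (I : Ideal L[X]) (f : L[X]) (l : ℕ) :
    (Phi I f).coeff l = Ideal.Quotient.mk I (C (f.coeff l) * X ^ l) := by
  induction f using Polynomial.induction_on' with
  | add p q hp hq => rw [map_add, coeff_add, hp, hq, coeff_add, C_add, add_mul, map_add]
  | monomial n c =>
    rw [phi_monomial, coeff_monomial, coeff_monomial]
    split_ifs with h
    · subst h; rfl
    · simp

theorem hE0 : StE0.{u} := by
  intro L _ I k₀ a hY
  have hone : ∀ k, k₀ ≤ k → Ideal.Quotient.mk I (C (a k) * X ^ k) = 1 := by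
    intro k hk
    have h := hY k hk
    rw [← Ideal.Quotient.eq_zero_iff_mem, map_sub, map_one, sub_eq_zero] at h
    exact h.symm
  have hxu : IsUnit (Ideal.Quotient.mk I X) := by
    have h := hone (k₀ + 1) (by omega)
    rw [pow_succ, ← mul_assoc, map_mul] at h
    exact IsUnit.of_mul_eq_one _ (by rw [mul_comm]; exact h)
  have hd : ∀ f : L[X], Phi I f = 0 ↔ ∀ l, C (f.coeff l) ∈ I := by
    intro f
    constructor
    · intro h l
      have h1 := phi_coeff I f l
      rw [h, coeff_zero, map_mul, map_pow] at h1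
      have h2 : Ideal.Quotient.mk I (C (f.coeff l)) = 0 :=
        ((hxu.pow l).mul_left_eq_zero).1 h1.symm
      exact Ideal.Quotient.eq_zero_iff_mem.1 h2
    · intro h
      ext1 l
      rw [phi_coeff, map_mul, Ideal.Quotient.eq_zero_iff_mem.2 (h l), zero_mul, coeff_zero]
  have hf : ∀ β : L[X] ⧸ I, ∃ M₀ : ℕ, ∀ M, M₀ ≤ M → ∀ q : L[X], ∃ f : L[X],
      Phi I (X ^ M * f) = X ^ M * C β * q.map (algebraMap L (L[X] ⧸ I)) := by
    intro β
    obtain ⟨p, rfl⟩ := Ideal.Quotient.mk_surjective β
    refine ⟨k₀ + p.natDegree, ?_⟩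
    intro M hM q
    induction q using Polynomial.induction_on' with
    | add q₁ q₂ h₁ h₂ =>
      obtain ⟨f₁, hf₁⟩ := h₁
      obtain ⟨f₂, hf₂⟩ := h₂
      refine ⟨f₁ + f₂, ?_⟩
      rw [mul_add, map_add, hf₁, hf₂, Polynomial.map_add, mul_add]
    | monomial l c =>
      refine ⟨monomial l (∑ i ∈ Finset.range (p.natDegree + 1), p.coeff i * c * a (M + l - i)), ?_⟩
      rw [X_pow_mul_monomial, phi_monomial]
      refine Eq.trans ?_ (gen_rhs (algebraMap L (L[X] ⧸ I)) (Ideal.Quotient.mk I p) M l c).symm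
      have hexp : l + M = M + l := by omega
      rw [hexp]
      congr 1
      have halg : algebraMap L (L[X] ⧸ I) c = Ideal.Quotient.mk I (C c) := rfl
      rw [halg, map_sum, Finset.sum_mul, map_sum]
      have hp : Ideal.Quotient.mk I p
          = ∑ i ∈ Finset.range (p.natDegree + 1), Ideal.Quotient.mk I (C (p.coeff i) * X ^ i) := by
        conv_lhs => rw [p.as_sum_range_C_mul_X_pow]
        rw [map_sum]
      rw [hp, Finset.sum_mul]
      apply Finset.sum_congr rfl
      intro i hi
      rw [Finset.mem_range] at hi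
      have h1 := hone (M + l - i) (by omega)
      have h2 : C (p.coeff i * c * a (M + l - i)) * (X : L[X]) ^ (M + l)
          = (C (p.coeff i) * X ^ i * C c) * (C (a (M + l - i)) * X ^ (M + l - i)) := by
        rw [C_mul, C_mul]
        have h3 : (X : L[X]) ^ (M + l) = X ^ i * X ^ (M + l - i) := by
          rw [← pow_add]; congr 1; omega
        rw [h3]; ring
      rw [h2, map_mul, h1, mul_one, map_mul]
  refine ⟨phi_coeff I, ?_, hxu, hd, ?_, hf, ?_⟩
  · intro f
    have h : (evalRingHom (1 : L[X] ⧸ I)).comp (Phi I) = Ideal.Quotient.mk I := by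
      apply Polynomial.ringHom_ext
      · intro c
        simp [Phi]
      · simp [Phi]
    have := congrArg (fun φ => φ f) h
    simpa using this
  · intro f
    rw [hd, Ideal.mem_map_C_iff]
    rfl
  · intro P
    induction P using Polynomial.induction_on' with
    | add P₁ P₂ h₁ h₂ =>
      obtain ⟨M₁, h₁⟩ := h₁
      obtain ⟨M₂, h₂⟩ := h₂
      refine ⟨max M₁ M₂, ?_⟩
      intro M hM
      obtain ⟨f₁, hf₁⟩ := h₁ M (le_trans (le_max_left _ _) hM)
      obtain ⟨f₂, hf₂⟩ := h₂ M (le_trans (le_max_right _ _) hM)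
      refine ⟨f₁ + f₂, ?_⟩
      rw [mul_add, map_add, hf₁, hf₂, mul_add]
    | monomial l β =>
      obtain ⟨M₀, h⟩ := hf β
      refine ⟨M₀, ?_⟩
      intro M hM
      obtain ⟨f, hf⟩ := h M hM (X ^ l)
      refine ⟨f, ?_⟩
      rw [hf, Polynomial.map_pow, map_X, mul_assoc, C_mul_X_pow_eq_monomial]

end Pool.Agent.Helper39.GU
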